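import Pool.Agent.H837.Jan.Main

/-!
# Generalized inverses of correspondences, and the Lefschetz standard conjecture
-/

open CategoryTheory CategoryTheory.Limits AlgebraicGeometry
open Pool.Agent.H914 Pool.Agent.H914.VarClass Pool.Agent.H914.VarClass.Obj Pool.Agent.R903
open Pool.Agent.R903.WeilTheory Pool.Agent.T6.H15.BB

universe u v w

namespace Pool.Agent.H837.Jan

variable {k : Type u} [Field k] {𝒱 : VarClass k} {C : ChowTheory.{u, v} 𝒱}
  {W : WeilTheory.{u, v, w} C}

lemma transp_transp {X Y : 𝒱.Obj} (y : C.CH (X.prod Y)) : C.transp (C.transp y) = y := by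
  rw [ChowTheory.transp, ChowTheory.transp, ← C.pull_comp]
  have : swap X Y ≫ swap Y X = 𝟙 _ := by apply hom_ext_prod <;> simp
  rw [this, C.pull_id]

/-- If homological and numerical equivalence coincide, correspondences have generalized inverses. -/
theorem exists_genInverse (hD : HomEqNum W) {X Y : 𝒱.Obj} {p q : ℕ}
    (hpq : p + q = X.dim + Y.dim) {γ : C.CH (X.prod Y)} (hγ : γ ∈ C.gr (X.prod Y) p) :
    ∃ σ ∈ C.gr (Y.prod X) q, ∀ a, W.act γ (W.act σ (W.act γ a)) = W.act γ a := by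
  have hE := isSemisimpleRing_corrRing hD X
  let I : Ideal (corrRing W X) :=
    { carrier := {T | ∃ σ ∈ C.gr (Y.prod X) q, W.act (C.comp γ σ) = T.1}
      add_mem' := by
        rintro ⟨_, _⟩ ⟨_, _⟩ ⟨σ, hσ, rfl⟩ ⟨τ, hτ, rfl⟩
        exact ⟨σ + τ, Submodule.add_mem _ hσ hτ, by rw [C.comp_add, W.act_add]; rfl⟩
      zero_mem' := ⟨0, Submodule.zero_mem _, by rw [C.comp_zero, W.act_zero]; rfl⟩
      smul_mem' := by
        rintro ⟨_, δ, hδ, rfl⟩ ⟨_, _⟩ ⟨σ, hσ, rfl⟩
        refine ⟨C.comp σ δ, C.comp_mem hσ hδ (by omega), ?_⟩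
        ext a
        rw [← C.comp_assoc, W.act_comp _ hδ]
        rfl }
  obtain ⟨e, ⟨σ, hσ, hσe⟩, he⟩ := exists_unit I
  refine ⟨σ, hσ, ?_⟩
  have hγσ : C.comp γ σ ∈ C.gr (X.prod X) X.dim := C.comp_mem hγ hσ (by omega)
  have hmem : γ - C.comp (C.comp γ σ) γ ∈ C.gr (X.prod Y) p :=
    Submodule.sub_mem _ hγ (C.comp_mem hγσ hγ (by omega))
  have key : W.act (γ - C.comp (C.comp γ σ) γ) = 0 := by
    rw [act_eq_zero_iff]
    refine hD _ p _ hmem (pairsToZero_of W hmem (q := q) (by rw [dim_prod]; omega) fun y hy => ?_)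
    have h1 : W.act (C.comp (γ - C.comp (C.comp γ σ) γ) (C.transp y)) = 0 := by
      have h2 : (⟨W.act (C.comp γ (C.transp y)), C.comp γ (C.transp y),
          C.comp_mem hγ (C.transp_mem hy) (by omega), rfl⟩ : corrRing W X) ∈ I :=
        ⟨C.transp y, C.transp_mem hy, rfl⟩
      have h3 := congrArg Subtype.val (he _ h2)
      ext a
      have h4 := LinearMap.congr_fun h3 a
      change W.act (C.comp γ (C.transp y)) (e.1 a) = W.act (C.comp γ (C.transp y)) a at h4
      rw [← hσe, W.act_comp _ (C.transp_mem hy), W.act_comp _ (C.transp_mem hy)] at h4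
      rw [W.act_comp _ (C.transp_mem hy), W.act_sub, LinearMap.sub_apply,
        W.act_comp (C.comp γ σ) hγ, map_sub, h4, sub_self, LinearMap.zero_apply]
    have h5 : str W X (W.act (C.comp (γ - C.comp (C.comp γ σ) γ) (C.transp y))) = 0 := by
      rw [h1]
      simp [str]
    rw [str_act_comp, transp_transp] at h5
    exact_mod_cast h5
  intro a
  have h6 := LinearMap.congr_fun key a
  rw [W.act_sub, LinearMap.sub_apply, W.act_comp _ hγ, W.act_comp _ hσ, LinearMap.zero_apply,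
    sub_eq_zero] at h6
  exact h6.symm

/-- The hard Lefschetz theorem and the existence of generalized inverses give the standard
conjecture of Lefschetz type. -/
theorem lefschetzStd (hD : HomEqNum W) {X : 𝒱.Obj} {D : C.CH X} (hD1 : D ∈ C.gr X 1)
    (hL : ∀ b, b < X.dim → ∀ a ∈ W.gr X b, W.cl X (D ^ (X.dim - b)) * a = 0 → a = 0) :
    LefschetzStd W X := by
  intro b hb
  have hDp : ∀ n : ℕ, D ^ n ∈ C.gr X n := by
    intro n
    induction n with
    | zero => rw [pow_zero]; exact C.one_mem X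
    | succ n ih => rw [pow_succ]; exact C.mul_mem ih hD1
  have hμ : C.span (𝟙 X) (𝟙 X) (D ^ (X.dim - b)) ∈ C.gr (X.prod X) (2 * X.dim - b) :=
    C.span_mem _ _ (hDp _) (by omega)
  obtain ⟨σ, hσ, h⟩ := exists_genInverse hD (p := 2 * X.dim - b) (q := b) (by omega) hμ
  refine ⟨_, σ, hμ, hσ, fun a ha => ?_⟩
  have h1 : ∀ a, W.act (C.span (𝟙 X) (𝟙 X) (D ^ (X.dim - b))) a =
      W.cl X (D ^ (X.dim - b)) * a := by
    intro a
    rw [W.act_span, W.map_id, W.push_id]
  have h2 := h a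
  rw [h1 (W.act σ _), h1 a, ← sub_eq_zero, ← mul_sub] at h2
  have h3 : W.act σ (W.cl X (D ^ (X.dim - b)) * a) ∈ W.gr X b := by
    refine act_mem_H hσ (W.mul_mem (W.cl_mem (hDp _)) ha) (by omega)
  have h4 := hL b hb _ (Submodule.sub_mem _ h3 ha) h2
  rw [h1 a]
  exact sub_eq_zero.1 h4

end Pool.Agent.H837.Jan
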