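import Mathlib

/-!
# Semisimple algebras and generalized inverses
-/

universe u v w

namespace Pool.Agent.H837.Jan

/-- A finite-dimensional algebra with a nondegenerate trace is semisimple. -/
theorem isSemisimpleRing_of_trace {E : Type*} [Ring E] [Algebra ℚ E] [Module.Finite ℚ E]
    {F : Type*} [Zero F] (t : E → F) (hnil : ∀ a, IsNilpotent a → t a = 0)
    (hnd : ∀ a, (∀ b, t (b * a) = 0) → a = 0) : IsSemisimpleRing E := by
  have : IsArtinianRing E := IsArtinianRing.of_finite ℚ E
  rw [IsArtinianRing.isSemisimpleRing_iff_jacobson, eq_bot_iff]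
  intro a ha
  have h0 : a = 0 := by
    refine hnd a fun b => hnil _ ?_
    obtain ⟨n, hn⟩ := (IsSemiprimaryRing.isNilpotent : IsNilpotent (Ring.jacobson E))
    refine ⟨n, ?_⟩
    have h1 : b * a ∈ Ring.jacobson E := Ideal.mul_mem_left _ b ha
    have h2 := Ideal.pow_mem_pow h1 n
    rw [hn] at h2
    simpa using h2
  rw [h0]
  exact Submodule.zero_mem _

/-- A left ideal of a semisimple ring has a right unit. -/
theorem exists_unit {E : Type*} [Ring E] [IsSemisimpleRing E] (I : Ideal E) :
    ∃ e ∈ I, ∀ a ∈ I, a * e = a := by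
  obtain ⟨J, hJ⟩ := exists_isCompl I
  have h1 : (1 : E) ∈ I ⊔ J := by rw [hJ.sup_eq_top]; trivial
  obtain ⟨e, he, f, hf, hef⟩ := Submodule.mem_sup.1 h1
  refine ⟨e, he, fun a ha => ?_⟩
  have h2 : a * f ∈ I ⊓ J := by
    refine ⟨?_, Ideal.mul_mem_left _ a hf⟩
    have h3 : a * f = a - a * e := by
      have h4 : a * e + a * f = a := by rw [← mul_add, hef, mul_one]
      exact eq_sub_of_add_eq' h4
    rw [h3]
    exact Submodule.sub_mem _ ha (Ideal.mul_mem_left _ a he)
  rw [hJ.inf_eq_bot, Submodule.mem_bot] at h2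
  calc a * e = a * e + a * f := by rw [h2, add_zero]
    _ = a := by rw [← mul_add, hef, mul_one]

/-- The range of a linear map whose kernel contains that of a linear map to a finite-dimensional
space is finite-dimensional. -/
theorem finite_range {V U T : Type*} [AddCommGroup V] [Module ℚ V] [AddCommGroup U] [Module ℚ U]
    [AddCommGroup T] [Module ℚ T] [Module.Finite ℚ U] (φ : V →ₗ[ℚ] U) (ψ : V →ₗ[ℚ] T)
    (h : LinearMap.ker φ ≤ LinearMap.ker ψ) : Module.Finite ℚ (LinearMap.range ψ) := by
  have h1 : Module.Finite ℚ (V ⧸ LinearMap.ker φ) :=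
    Module.Finite.equiv φ.quotKerEquivRange.symm
  have h2 : LinearMap.range ((LinearMap.ker φ).liftQ ψ h) = LinearMap.range ψ :=
    Submodule.range_liftQ _ _ _
  rw [← h2]
  infer_instance

end Pool.Agent.H837.Jan
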