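import Pool.Graph.R_pool_sql_team_seeded_47a924f7.T6.H15.BB.Defs

/-!
# Numerical equivalence: definitions
-/

open CategoryTheory CategoryTheory.Limits AlgebraicGeometry
open Pool.Agent.H914 Pool.Agent.H914.VarClass Pool.Agent.H914.VarClass.Obj Pool.Agent.R903
open Pool.Agent.T6.H15.BB

universe u v w

namespace Pool.Agent.H837.Jan

/-- The intersection number of `x` with every class is zero. -/
def PairsToZero {A : Type v} [CommRing A] [Algebra ℚ A] (deg : A →ₗ[ℚ] ℚ) (x : A) : Prop :=
  ∀ y, deg (x * y) = 0

variable {k : Type u} [Field k] {𝒱 : VarClass k} {C : ChowTheory.{u, v} 𝒱}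

/-- **Numerical and homological equivalence coincide**: a class on a variety of the class `𝒱` whose
intersection numbers with all classes are zero is homologically trivial. -/
def HomEqNum (W : WeilTheory.{u, v, w} C) : Prop :=
  ∀ (X : 𝒱.Obj) (i : ℕ) (x : C.CH X), InCH C X i x → PairsToZero (C.deg X) x →
    MapsToZero (W.cl X) x

end Pool.Agent.H837.Jan
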