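import Pool.Agent.H837.Jan.Trace

/-!
# The degree of the intersection with the diagonal
-/

open CategoryTheory CategoryTheory.Limits AlgebraicGeometry
open Pool.Agent.H914 Pool.Agent.H914.VarClass Pool.Agent.H914.VarClass.Obj Pool.Agent.R903
open Pool.Agent.R903.WeilTheory Pool.Agent.T6.H15.BB

universe u v w

namespace Pool.Agent.H837.Jan

variable {k : Type u} [Field k] {𝒱 : VarClass k} {C : ChowTheory.{u, v} 𝒱}
  (W : WeilTheory.{u, v, w} C)

include W

lemma deg_push {X Y : 𝒱.Obj} (f : X ⟶ Y) (x : C.CH X) : C.deg Y (C.push f x) = C.deg X x := by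
  have h : ((C.deg Y (C.push f x) : ℚ) : W.K) = (C.deg X x : W.K) := by
    rw [← W.tr_cl, ← W.tr_cl, W.cl_push]
    have := W.tr_push f (W.cl X x) 1
    rwa [mul_one, map_one, mul_one] at this
  exact_mod_cast h

/-- the pairing of `γ_* x` and `y` -/
lemma deg_act {X Y : 𝒱.Obj} (γ : C.CH (X.prod Y)) (x : C.CH X) (y : C.CH Y) :
    C.deg Y (C.act γ x * y) =
      C.deg (X.prod Y) (γ * C.pull (fst X Y) x * C.pull (snd X Y) y) := by
  rw [C.act_apply, ← C.push_mul, deg_push W]

lemma deg_pull_iso {A B T : 𝒱.Obj} (φ : A ⟶ B.prod T) [IsIso φ] (y : C.CH (B.prod T)) :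
    C.deg A (C.pull φ y) = C.deg (B.prod T) y := by
  rw [← deg_push W φ, C.push_pull_iso]

/-- the isomorphism `(Y × Y) × (X × X) → (X × Y) × (X × Y)` -/
noncomputable def shuf (X Y : 𝒱.Obj) :
    (Y.prod Y).prod (X.prod X) ⟶ (X.prod Y).prod (X.prod Y) :=
  lift (lift (snd _ _ ≫ fst _ _) (fst _ _ ≫ fst _ _)) (lift (snd _ _ ≫ snd _ _) (fst _ _ ≫ snd _ _))

omit W in
lemma isIso_shuf (X Y : 𝒱.Obj) : IsIso (shuf X Y) := by
  refine isIso_of (lift (lift (fst _ _ ≫ snd _ _) (snd _ _ ≫ snd _ _))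
    (lift (fst _ _ ≫ fst _ _) (snd _ _ ≫ fst _ _))) ?_ ?_ <;>
  · rw [shuf]
    apply hom_ext_prod <;> apply hom_ext_prod <;> simp

/-- The intersection number of the diagonal with a composition. -/
lemma deg_diagC_comp {X Y : 𝒱.Obj} (α : C.CH (X.prod Y)) (β : C.CH (Y.prod X)) :
    C.deg (X.prod X) (C.comp α β * C.diagC X) = C.deg (X.prod Y) (α * C.transp β) := by
  have hiso := isIso_shuf X Y
  -- the left hand side
  have h1 : C.comp α β = C.act (C.tensor (C.transp α) β) (C.diagC Y) := by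
    rw [C.act_tensor, C.comp_diagC]
  rw [h1, deg_act W]
  -- the right hand side
  have h2 : α * C.transp β = C.act (C.diagC (X.prod Y)) α * C.transp β := by rw [C.act_diagC]
  rw [h2, deg_act W, ← deg_pull_iso W (shuf X Y), ← C.tensor_diagC]
  congr 1
  rw [C.pull_mul, C.pull_mul, ChowTheory.tensor, ChowTheory.tensor, C.pull_mul, ChowTheory.transp,
    ChowTheory.transp]
  simp only [← C.pull_comp]
  have e1 : shuf X Y ≫ fst (X.prod Y) (X.prod Y) =
      prodMap (fst Y Y) (fst X X) ≫ swap Y X := by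
    rw [shuf]
    apply hom_ext_prod <;> simp
  have e2 : shuf X Y ≫ snd (X.prod Y) (X.prod Y) ≫ swap X Y =
      prodMap (snd Y Y) (snd X X) := by
    rw [shuf]
    apply hom_ext_prod <;> simp
  have e3 : shuf X Y ≫ prodMap (fst X Y) (fst X Y) = snd (Y.prod Y) (X.prod X) := by
    rw [shuf]
    apply hom_ext_prod <;> simp
  have e4 : shuf X Y ≫ prodMap (snd X Y) (snd X Y) = fst (Y.prod Y) (X.prod X) := by
    rw [shuf]
    apply hom_ext_prod <;> simp
  rw [e1, e2, e3, e4]
  ring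

/-- The supertrace of a composition of correspondences. -/
lemma str_act_comp {X Y : 𝒱.Obj} (α : C.CH (X.prod Y)) (β : C.CH (Y.prod X)) :
    str W X (W.act (C.comp α β)) = (C.deg (X.prod Y) (α * C.transp β) : W.K) := by
  rw [act_eq_opH, str_opH, ← W.cl_mul, W.tr_cl, deg_diagC_comp W]

end Pool.Agent.H837.Jan
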