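import Pool.Graph.R_pool_sql_team_seeded_47a924f7.T6.H15.BB.Twist
import Pool.Agent.H837.Jan.Deg
import Pool.Agent.H837.Jan.Alg
import Pool.Agent.H837.Jan.Defs

/-!
# Semisimplicity of the category of homological motives (Jannsen)
-/

open CategoryTheory CategoryTheory.Limits AlgebraicGeometry
open Pool.Agent.H914 Pool.Agent.H914.VarClass Pool.Agent.H914.VarClass.Obj Pool.Agent.R903
open Pool.Agent.R903.WeilTheory Pool.Agent.T6.H15.BB

universe u v w

namespace Pool.Agent.H837.Jan

variable {k : Type u} [Field k] {𝒱 : VarClass k} {C : ChowTheory.{u, v} 𝒱}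
  (W : WeilTheory.{u, v, w} C)

include W in
lemma pairsToZero_of {X : 𝒱.Obj} {p q : ℕ} {x : C.CH X} (hx : x ∈ C.gr X p)
    (hpq : p + q = X.dim) (h : ∀ y ∈ C.gr X q, C.deg X (x * y) = 0) :
    PairsToZero (C.deg X) x := by
  intro y
  refine gr_induction (C.isInternal X) (p := fun y => C.deg X (x * y) = 0) ?_ ?_ y
  · intro r y hy
    by_cases hr : r = q
    · subst hr
      exact h y hy
    · exact deg_eq_zero W (C.mul_mem hx hy) (by omega)
  · intro y y' h h'
    rw [mul_add, map_add, h, h', add_zero]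

/-- the operators on the cohomology of `X` which are given by correspondences -/
noncomputable def corrLin (X : 𝒱.Obj) : C.gr (X.prod X) X.dim →+ Module.End W.K (W.H X) where
  toFun γ := W.act γ.1
  map_zero' := W.act_zero
  map_add' γ δ := W.act_add γ.1 δ.1

/-- the algebra of correspondences modulo homological equivalence -/
noncomputable def corrRing (X : 𝒱.Obj) : Subring (Module.End W.K (W.H X)) where
  carrier := {T | ∃ γ ∈ C.gr (X.prod X) X.dim, W.act γ = T}
  mul_mem' := by
    rintro _ _ ⟨γ, hγ, rfl⟩ ⟨δ, hδ, rfl⟩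
    refine ⟨C.comp δ γ, C.comp_mem hδ hγ rfl, ?_⟩
    ext a
    rw [W.act_comp _ hγ]
    rfl
  one_mem' := ⟨C.diagC X, C.diagC_mem X, by ext a; rw [W.act_diagC]; rfl⟩
  add_mem' := by
    rintro _ _ ⟨γ, hγ, rfl⟩ ⟨δ, hδ, rfl⟩
    exact ⟨γ + δ, Submodule.add_mem _ hγ hδ, W.act_add γ δ⟩
  zero_mem' := ⟨0, Submodule.zero_mem _, W.act_zero⟩
  neg_mem' := by
    rintro _ ⟨γ, hγ, rfl⟩
    exact ⟨-γ, Submodule.neg_mem _ hγ, by
      have := W.act_sub 0 γ
      rw [zero_sub, W.act_zero, zero_sub] at this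
      exact this⟩

/-- the scalars -/
noncomputable def ratHom (X : 𝒱.Obj) : ℚ →+* corrRing W X where
  toFun q := ⟨algebraMap W.K (Module.End W.K (W.H X)) (q : W.K), ⟨q • C.diagC X,
    Submodule.smul_mem _ _ (C.diagC_mem X), by
      rw [W.act_smul]
      ext a
      rw [LinearMap.smul_apply, W.act_diagC]
      rfl⟩⟩
  map_one' := by ext a; simp
  map_mul' p q := by ext a; simp
  map_zero' := by ext a; simp
  map_add' p q := by ext a; simp

/-- the `ℚ`-algebra structure -/
@[instance_reducible]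
noncomputable def ratAlg (X : 𝒱.Obj) : Algebra ℚ (corrRing W X) :=
  (ratHom W X).toAlgebra' fun c x => by
    apply Subtype.ext
    exact Algebra.commutes _ _

lemma ratAlg_smul (X : 𝒱.Obj) (q : ℚ) (T : corrRing W X) :
    ((@HSMul.hSMul ℚ (corrRing W X) (corrRing W X)
      (@instHSMul _ _ (ratAlg W X).toSMul) q T : corrRing W X) : Module.End W.K (W.H X)) =
      (q : W.K) • T.1 := by
  let := ratAlg W X
  have h : q • T = ratHom W X q * T := Algebra.smul_def q T
  rw [h]
  ext a
  rfl

variable {W}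

/-- Finitely many cycles detect the numerically trivial cycles. -/
lemma exists_finite_test (hD : HomEqNum W) {Y : 𝒱.Obj} {p q : ℕ} (hpq : p + q = Y.dim) :
    ∃ T : Finset (C.CH Y), (∀ y ∈ T, y ∈ C.gr Y q) ∧
      ∀ x ∈ C.gr Y p, (∀ y ∈ T, C.deg Y (x * y) = 0) → W.cl Y x = 0 := by
  classical
  have hfg : (Submodule.span W.K {v | ∃ y ∈ C.gr Y q, W.cl Y y = v}).FG :=
    @IsNoetherian.noetherian W.K (W.H Y) _ _ _ _ _
  obtain ⟨S, hS, hspan⟩ := Submodule.fg_span_iff_fg_span_finset_subset _ |>.1 hfg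
  choose! f hf1 hf2 using fun (v : W.H Y) (hv : v ∈ S) => hS hv
  refine ⟨S.image f, ?_, ?_⟩
  · intro y hy
    obtain ⟨v, hv, rfl⟩ := Finset.mem_image.1 hy
    exact hf1 v hv
  · intro x hx h0
    refine hD Y p x hx (pairsToZero_of W hx hpq fun y hy => ?_)
    have h1 : ∀ v ∈ Submodule.span W.K {v | ∃ y ∈ C.gr Y q, W.cl Y y = v},
        W.tr Y (W.cl Y x * v) = 0 := by
      intro v hv
      rw [hspan] at hv
      refine Submodule.span_induction (p := fun v _ => W.tr Y (W.cl Y x * v) = 0) ?_ ?_ ?_ ?_ hv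
      · intro v hv
        rw [← hf2 v hv, ← W.cl_mul, W.tr_cl, h0 _ (Finset.mem_image_of_mem f hv), Rat.cast_zero]
      · rw [mul_zero, map_zero]
      · intro a b _ _ ha hb
        rw [mul_add, map_add, ha, hb, add_zero]
      · intro c a _ ha
        rw [mul_smul_comm, map_smul, ha, smul_zero]
    have h2 := h1 _ (Submodule.subset_span ⟨y, hy, rfl⟩)
    rw [← W.cl_mul, W.tr_cl] at h2
    exact_mod_cast h2

lemma act_eq_zero_iff {X Y : 𝒱.Obj} {γ : C.CH (X.prod Y)} : W.act γ = 0 ↔ W.cl _ γ = 0 := by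
  constructor
  · intro h
    exact cl_eq_zero W fun j a _ => by rw [h, LinearMap.zero_apply]
  · intro h
    rw [act_eq_opH, h]
    ext a
    rw [opH_apply, zero_mul, map_zero, LinearMap.zero_apply]

theorem finite_corrRing (hD : HomEqNum W) (X : 𝒱.Obj) :
    @Module.Finite ℚ (corrRing W X) _ _ (ratAlg W X).toModule := by
  classical
  let := ratAlg W X
  obtain ⟨T, hT, h⟩ := exists_finite_test hD (Y := X.prod X) (p := X.dim) (q := X.dim)
    (by rw [dim_prod])
  let φ : C.gr (X.prod X) X.dim →ₗ[ℚ] (T → ℚ) :=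
    LinearMap.pi fun y => C.deg (X.prod X) ∘ₗ LinearMap.mulRight ℚ y.1 ∘ₗ Submodule.subtype _
  let ψ : C.gr (X.prod X) X.dim →ₗ[ℚ] corrRing W X :=
    { toFun := fun γ => ⟨W.act γ.1, γ.1, γ.2, rfl⟩
      map_add' := fun γ δ => Subtype.ext (W.act_add γ.1 δ.1)
      map_smul' := fun q γ => by
        apply Subtype.ext
        rw [RingHom.id_apply, ratAlg_smul]
        exact W.act_smul q γ.1 }
  have h1 : LinearMap.ker φ ≤ LinearMap.ker ψ := by
    intro γ hγ
    rw [LinearMap.mem_ker] at hγ ⊢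
    apply Subtype.ext
    refine act_eq_zero_iff.2 (h γ.1 γ.2 fun y hy => ?_)
    exact congrFun hγ ⟨y, hy⟩
  have h2 : LinearMap.range ψ = ⊤ := by
    rw [LinearMap.range_eq_top]
    rintro ⟨_, γ, hγ, rfl⟩
    exact ⟨⟨γ, hγ⟩, rfl⟩
  have h3 := finite_range φ ψ h1
  rw [h2] at h3
  exact Module.Finite.equiv (Submodule.topEquiv)

/-- The supertrace of a nilpotent operator which respects the degrees is zero. -/
lemma str_of_isNilpotent {X : 𝒱.Obj} {T : Module.End W.K (W.H X)}
    (hT : ∀ i, ∀ a ∈ W.gr X i, T a ∈ W.gr X i) (h : IsNilpotent T) : str W X T = 0 := by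
  rw [str]
  refine Finset.sum_eq_zero fun i _ => ?_
  have hcomm : Commute (projH W X i) T := by
    ext a
    rw [Module.End.mul_apply, Module.End.mul_apply]
    refine gr_induction (W.isInternal X) (p := fun a => projH W X i (T a) = T (projH W X i a))
      ?_ ?_ a
    · intro j a ha
      rw [projH_apply (hT j a ha), projH_apply ha]
      split_ifs
      · rfl
      · rw [map_zero]
    · intro a b ha hb
      rw [map_add, map_add, map_add, map_add, ha, hb]
  have h1 : IsNilpotent (projH W X i * T) := hcomm.isNilpotent_mul_left h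
  have h2 := LinearMap.isNilpotent_trace_of_isNilpotent h1
  rw [isNilpotent_iff_eq_zero] at h2
  rw [h2, mul_zero]

theorem isSemisimpleRing_corrRing (hD : HomEqNum W) (X : 𝒱.Obj) :
    IsSemisimpleRing (corrRing W X) := by
  let := ratAlg W X
  have := finite_corrRing hD X
  refine isSemisimpleRing_of_trace (F := W.K) (fun T => str W X T.1) ?_ ?_
  · rintro ⟨_, γ, hγ, rfl⟩ hnil
    refine str_of_isNilpotent ?_ ?_
    · intro i a ha
      exact act_mem_H hγ ha (by omega)
    · exact hnil.map (corrRing W X).subtype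
  · rintro ⟨_, γ, hγ, rfl⟩ h0
    apply Subtype.ext
    change W.act γ = 0
    rw [act_eq_zero_iff]
    refine hD _ X.dim γ hγ (pairsToZero_of W hγ (q := X.dim) (by rw [dim_prod]) fun y hy => ?_)
    have h1 := h0 ⟨W.act (C.transp y), C.transp y, C.transp_mem hy, rfl⟩
    have h2 : str W X (W.act (C.comp γ (C.transp y))) = 0 := by
      rw [← h1]
      congr 1
      ext a
      rw [W.act_comp _ (C.transp_mem hy)]
      rfl
    rw [str_act_comp] at h2
    have h3 : C.transp (C.transp y) = y := by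
      rw [ChowTheory.transp, ChowTheory.transp, ← C.pull_comp]
      have : swap X X ≫ swap X X = 𝟙 _ := by apply hom_ext_prod <;> simp
      rw [this, C.pull_id]
    rw [h3] at h2
    exact_mod_cast h2

end Pool.Agent.H837.Jan
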