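import Pool.Graph.R_pool_sql_team_seeded_47a924f7.T6.H15.BB.Lef

/-!
# The trace formula for correspondences
-/

open CategoryTheory CategoryTheory.Limits AlgebraicGeometry
open Pool.Agent.H914 Pool.Agent.H914.VarClass Pool.Agent.H914.VarClass.Obj Pool.Agent.R903
open Pool.Agent.R903.WeilTheory Pool.Agent.T6.H15.BB

universe u v w

namespace Pool.Agent.H837.Jan

variable {k : Type u} [Field k] {𝒱 : VarClass k} {C : ChowTheory.{u, v} 𝒱}
  (W : WeilTheory.{u, v, w} C)

instance finiteH (X : 𝒱.Obj) : Module.Finite W.K (W.H X) := (W.isPoincareAlgebra X).finite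

/-- the supertrace of an operator on the cohomology -/
noncomputable def str (X : 𝒱.Obj) (T : Module.End W.K (W.H X)) : W.K :=
  ∑ i ∈ Finset.range (2 * X.dim + 1),
    (-1 : W.K) ^ i * LinearMap.trace W.K (W.H X) (projH W X i * T)

/-- the operator `a ↦ push (c * a)` -/
noncomputable def opH (X Y : 𝒱.Obj) (c : W.H (X.prod Y)) : W.H X →ₗ[W.K] W.H Y :=
  corrOp (W.map (fst X Y)) (W.push (snd X Y)) c

lemma opH_apply {X Y : 𝒱.Obj} (c : W.H (X.prod Y)) (a : W.H X) :
    opH W X Y c a = W.push (snd X Y) (c * W.map (fst X Y) a) := rfl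

lemma opH_add {X Y : 𝒱.Obj} (c c' : W.H (X.prod Y)) :
    opH W X Y (c + c') = opH W X Y c + opH W X Y c' := by
  ext a
  simp [opH_apply, add_mul]

lemma act_eq_opH {X Y : 𝒱.Obj} (γ : C.CH (X.prod Y)) : W.act γ = opH W X Y (W.cl _ γ) := rfl

lemma str_add {X : 𝒱.Obj} (T T' : Module.End W.K (W.H X)) :
    str W X (T + T') = str W X T + str W X T' := by
  simp [str, mul_add, Finset.sum_add_distrib]

lemma neg_one_pow_sq (i : ℕ) : (-1 : W.K) ^ (i * i) = (-1 : W.K) ^ i := by
  rcases Nat.even_or_odd i with h | h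
  · rw [h.neg_one_pow, (h.mul_right i).neg_one_pow]
  · rw [h.neg_one_pow, (h.mul h).neg_one_pow]

/-- The trace of an operator of rank one. -/
lemma trace_rank_one {V : Type*} [AddCommGroup V] [Module W.K V] [Module.Finite W.K V]
    (f : V →ₗ[W.K] W.K) (v : V) (T : Module.End W.K V) (h : ∀ a, T a = f a • v) :
    LinearMap.trace W.K V T = f v := by
  have : T = dualTensorHom W.K V V (f ⊗ₜ[W.K] v) := by
    ext a
    rw [h, dualTensorHom_apply]
  rw [this, LinearMap.trace_eq_contract_apply, contractLeft_apply]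

/-- The operator given by an external product. -/
lemma opH_ext {X Y : 𝒱.Obj} {p q : ℕ} {a : W.H X} (ha : a ∈ W.gr X p) {b : W.H Y}
    (hb : b ∈ W.gr Y q) (c : W.H X) :
    opH W X Y (W.map (fst X Y) a * W.map (snd X Y) b) c =
      ((-1 : W.K) ^ (q * p) * W.tr X (a * c)) • b := by
  rw [opH_apply]
  refine gr_induction (W.isInternal X) (p := fun c =>
    W.push (snd X Y) (W.map (fst X Y) a * W.map (snd X Y) b * W.map (fst X Y) c) =
      ((-1 : W.K) ^ (q * p) * W.tr X (a * c)) • b) ?_ ?_ c
  · intro r c hc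
    rw [mul_assoc, W.comm (W.map_mem _ hb) (W.map_mem _ hc), mul_smul_comm, ← mul_assoc,
      ← W.map_mul', map_smul, W.push_snd, smul_smul]
    by_cases h : p + r = 2 * X.dim
    · congr 2
      have h1 : (-1 : W.K) ^ (q * r) * (-1 : W.K) ^ (q * p) = 1 := by
        rw [← pow_add, ← mul_add, add_comm r p, h, mul_left_comm, pow_mul]; simp
      have h3 : (-1 : W.K) ^ (q * p) * (-1 : W.K) ^ (q * p) = 1 := by
        rw [← pow_add, ← two_mul, pow_mul]; simp
      calc (-1 : W.K) ^ (q * r) = (-1 : W.K) ^ (q * r) * ((-1 : W.K) ^ (q * p) *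
            (-1 : W.K) ^ (q * p)) := by rw [h3, mul_one]
        _ = _ := by rw [← mul_assoc, h1, one_mul]
    · rw [W.tr_eq_zero (W.mul_mem ha hc) h, mul_zero, mul_zero]
  · intro c c' h h'
    rw [map_add, mul_add, map_add, h, h', mul_add, map_add, mul_add, add_smul]

/-- The **trace formula**. -/
lemma str_opH {X : 𝒱.Obj} (c : W.H (X.prod X)) :
    str W X (opH W X X c) = W.tr (X.prod X) (c * W.cl _ (C.diagC X)) := by
  refine W.kunneth_induction (p := fun c =>
    str W X (opH W X X c) = W.tr (X.prod X) (c * W.cl _ (C.diagC X))) ?_ ?_ c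
  · intro c c' h h'
    rw [opH_add, str_add, h, h', add_mul, map_add]
  · intro p q a ha b hb
    have hcl : W.cl _ (C.diagC X) = W.push (Obj.diag X) 1 := by
      rw [ChowTheory.diagC, W.cl_push, map_one]
    have hd : W.cl _ (C.diagC X) ∈ W.gr (X.prod X) (2 * X.dim) := W.cl_mem (C.diagC_mem X)
    have h1 : W.tr (X.prod X) (W.map (fst X X) a * W.map (snd X X) b * W.cl _ (C.diagC X)) =
        W.tr X (a * b) := by
      rw [← W.even_comm hd, hcl, W.tr_push, one_mul, W.map_mul', ← W.map_comp, ← W.map_comp]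
      simp [W.map_id]
    rw [h1, str]
    have h2 : ∀ i, LinearMap.trace W.K (W.H X) (projH W X i *
        opH W X X (W.map (fst X X) a * W.map (snd X X) b)) =
        if q = i then (-1 : W.K) ^ (q * p) * W.tr X (a * b) else 0 := by
      intro i
      rw [trace_rank_one W ((((-1 : W.K) ^ (q * p)) • W.tr X) ∘ₗ LinearMap.mulLeft W.K a)
        (if q = i then b else 0)]
      · split_ifs <;> simp
      · intro c
        rw [Module.End.mul_apply, opH_ext W ha hb, map_smul, projH_apply hb]
        simp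
    simp only [h2]
    by_cases hpq : p + q = 2 * X.dim
    · rw [Finset.sum_eq_single q]
      · rw [if_pos rfl, ← mul_assoc]
        have h3 : (-1 : W.K) ^ q * (-1 : W.K) ^ (q * p) = 1 := by
          have h4 : (-1 : W.K) ^ (q * p) * (-1 : W.K) ^ (q * q) = 1 := by
            rw [← pow_add, ← mul_add, hpq, mul_left_comm, pow_mul]; simp
          rw [neg_one_pow_sq] at h4
          rw [mul_comm]
          exact h4
        rw [h3, one_mul]
      · intro i _ hi
        rw [if_neg (Ne.symm hi), mul_zero]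
      · intro h
        rw [Finset.mem_range] at h
        omega
    · rw [W.tr_eq_zero (W.mul_mem ha hb) hpq]
      simp

end Pool.Agent.H837.Jan
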